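import Pool.Agent.Helper87.HD.Stmts
import Pool.Agent.Helper66.LC.Num
import Pool.Agent.Helper5.HD.SP

/-! LEM: Lemma L for every `d = n + 1`. -/

set_option autoImplicit false

open Finset

namespace HD

section LEM

variable {V : Type} [NormedAddCommGroup V] [InnerProductSpace ℂ V]

theorem lem_hasDeriv {n : ℕ} (Φ : MultilinearMap ℂ (fun _ : Fin n => V) ℂ) (Y F : Fin n → V)
    (s : ℂ) : HasDerivAt (fun s : ℂ => Φ (fun i => Y i + s • F i))
      (∑ i, Φ (Function.update (fun j => Y j + s • F j) i (F i))) s := by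
  induction n with
  | zero =>
    have : (fun s : ℂ => Φ (fun i => Y i + s • F i)) = fun _ => Φ (fun i => Y i + s • F i) := by
      funext t
      congr 1
      funext i
      exact i.elim0
    rw [this]
    simpa using hasDerivAt_const s _
  | succ n ih =>
    have e1 : ∀ x : Fin (n + 1) → V, Φ x = Φ.curryLeft (x 0) (fun i => x i.succ) := by
      intro x
      rw [MultilinearMap.curryLeft_apply]
      congr 1
      exact (Fin.cons_self_tail x).symm
    have e2 : (fun s : ℂ => Φ (fun i => Y i + s • F i)) =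
        fun s => Φ.curryLeft (Y 0) (fun i => Y i.succ + s • F i.succ) +
          s * Φ.curryLeft (F 0) (fun i => Y i.succ + s • F i.succ) := by
      funext t
      rw [e1]
      simp [map_add, map_smul]
    rw [e2]
    have h1 := ih (Φ.curryLeft (Y 0)) (fun i => Y i.succ) (fun i => F i.succ)
    have h2 := ih (Φ.curryLeft (F 0)) (fun i => Y i.succ) (fun i => F i.succ)
    have h3 := h1.add ((hasDerivAt_id s).mul h2)
    refine h3.congr_deriv ?_
    rw [Fin.sum_univ_succ]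
    have e3 : Φ (Function.update (fun j => Y j + s • F j) 0 (F 0)) =
        Φ.curryLeft (F 0) (fun i => Y i.succ + s • F i.succ) := by
      rw [e1]
      congr 1
    have e4 : ∀ i : Fin n, Φ (Function.update (fun j => Y j + s • F j) i.succ (F i.succ)) =
        Φ.curryLeft (Y 0) (Function.update (fun j : Fin n => Y j.succ + s • F j.succ) i (F i.succ)) +
        s * Φ.curryLeft (F 0)
          (Function.update (fun j : Fin n => Y j.succ + s • F j.succ) i (F i.succ)) := by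
      intro i
      rw [e1]
      have : (fun k : Fin n => Function.update (fun j => Y j + s • F j) i.succ (F i.succ) k.succ) =
          Function.update (fun j : Fin n => Y j.succ + s • F j.succ) i (F i.succ) := by
        funext k
        by_cases hk : k = i
        · subst hk; simp
        · rw [Function.update_of_ne hk, Function.update_of_ne]
          exact fun h => hk (Fin.succ_injective _ h)
      rw [this, Function.update_of_ne (Fin.succ_ne_zero i).symm]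
      simp [map_add, map_smul]
    rw [e3, Finset.sum_congr rfl (fun i _ => e4 i), Finset.sum_add_distrib, ← Finset.mul_sum]
    simp only [id_eq, one_mul]
    ring

theorem lem_update {n : ℕ} (Φ : MultilinearMap ℂ (fun _ : Fin (n + 1) => V) ℂ) (hs : SymF Φ)
    (w F : V) (i : Fin (n + 1)) :
    Φ (Function.update (fun _ => w) i F) = Φ.curryLeft F (fun _ => w) := by
  rw [MultilinearMap.curryLeft_apply]
  rw [← hs (Equiv.swap 0 i) (Function.update (fun _ => w) i F)]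
  congr 1
  funext k
  refine Fin.cases ?_ (fun j => ?_) k
  · simp
  · simp only [Fin.cons_succ]
    rw [Function.update_of_ne]
    intro h
    have h' : Equiv.swap 0 i (Fin.succ j) = Equiv.swap 0 i 0 := by rw [h]; simp
    exact Fin.succ_ne_zero j ((Equiv.swap 0 i).injective h')

theorem lem_deriv {n : ℕ} (Φ : MultilinearMap ℂ (fun _ : Fin (n + 1) => V) ℂ) (hs : SymF Φ)
    (Y F : V) (s : ℂ) : HasDerivAt (fun s : ℂ => Φ (fun _ => Y + s • F))
      (((n : ℂ) + 1) * Φ.curryLeft F (fun _ => Y + s • F)) s := by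
  have h := lem_hasDeriv Φ (fun _ => Y) (fun _ => F) s
  refine h.congr_deriv ?_
  rw [Finset.sum_congr rfl (fun i _ => lem_update Φ hs (Y + s • F) F i)]
  simp

theorem lem_smul {n : ℕ} (Φ : MultilinearMap ℂ (fun _ : Fin n => V) ℂ) (c : ℂ) (w : V) :
    Φ (fun _ => c • w) = c ^ n * Φ (fun _ => w) := by
  have := Φ.map_smul_univ (fun _ => c) (fun _ => w)
  simpa using this

theorem lem_norm (e v : V) (a b : ℂ) (he : ‖e‖ = 1) (hv : ‖v‖ = 1) (hev : inner ℂ e v = 0) :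
    ‖a • e + b • v‖ ^ 2 = ‖a‖ ^ 2 + ‖b‖ ^ 2 := by
  have h0 : inner ℂ (a • e) (b • v) = 0 := by
    rw [inner_smul_left, inner_smul_right, hev]; simp
  have := norm_add_sq_eq_norm_sq_add_norm_sq_of_inner_eq_zero (𝕜 := ℂ) (a • e) (b • v) h0
  rw [sq, this, norm_smul, norm_smul, he, hv]
  ring

/-- Lemma L for a real nonnegative `z` and unit vectors. -/
theorem lem_core (m : ℕ) (Φ : MultilinearMap ℂ (fun _ : Fin (m + 1 + 1) => V) ℂ) (hs : SymF Φ)
    (hu : UnitF Φ) (e v : V) (z : ℝ) (hz : 0 ≤ z) (he : ‖e‖ = 1) (hv : ‖v‖ = 1)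
    (hev : inner ℂ e v = 0) :
    ‖Φ.curryLeft e (fun _ => (z : ℂ) • e + v)‖ ^ 2 ≤
      (z ^ 2 + 1 / (m + 1)) * (z ^ 2 + (m + 2) / (m + 1)) ^ m ∧
    (0 < m → 0 < z → ‖Φ.curryLeft e (fun _ => (z : ℂ) • e + v)‖ ^ 2 <
      (z ^ 2 + 1 / (m + 1)) * (z ^ 2 + (m + 2) / (m + 1)) ^ m) := by
  set r : ℝ := 1 / Real.sqrt (m + 1) with hr
  have hm1 : (0 : ℝ) < (m : ℝ) + 1 := by positivity
  have hrp : 0 < r := by rw [hr]; positivity
  have hr2 : r ^ 2 * (m + 1) = 1 := by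
    rw [hr, div_pow, Real.sq_sqrt hm1.le]
    field_simp
  obtain ⟨T, hT0, hTr, hTz, hmain⟩ := Pool.Agent.Helper66.LC.num_main m z r hz hrp hr2
  set w : V := (z : ℂ) • e + v with hw
  set Y : V := ((z - T : ℝ) : ℂ) • e + ((1 + T * z : ℝ) : ℂ) • v with hY
  set F : V := ((1 + T * z : ℝ) : ℂ) • e - ((z - T : ℝ) : ℂ) • v with hF
  have hYF : Y + (T : ℂ) • F = ((1 + T ^ 2 : ℝ) : ℂ) • w := by
    rw [hY, hF, hw]
    push_cast
    module
  have hwF : ((z - T : ℝ) : ℂ) • w + F = ((1 + z ^ 2 : ℝ) : ℂ) • e := by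
    rw [hF, hw]
    push_cast
    module
  have hnorm : ∀ s : ℂ, ‖Y + s • F‖ ^ 2 = (1 + T ^ 2) * (1 + z ^ 2) * (1 + ‖s‖ ^ 2) := by
    intro s
    have e1 : Y + s • F = (((z - T : ℝ) : ℂ) + s * ((1 + T * z : ℝ) : ℂ)) • e +
        (((1 + T * z : ℝ) : ℂ) - s * ((z - T : ℝ) : ℂ)) • v := by
      rw [hY, hF]
      module
    rw [e1, lem_norm e v _ _ he hv hev, Complex.sq_norm, Complex.sq_norm, Complex.sq_norm,
      Complex.normSq_apply, Complex.normSq_apply, Complex.normSq_apply]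
    simp
    ring
  set W : ℝ := (1 + T ^ 2) * (1 + z ^ 2) * (1 + r ^ 2) with hW
  have hWp : 0 < W := by rw [hW]; positivity
  set R : ℝ := Real.sqrt W ^ (m + 1 + 1) with hR
  have hRp : 0 < R := by rw [hR]; positivity
  have hR2 : R ^ 2 = W ^ (m + 2) := by
    rw [hR, ← pow_mul, mul_comm, pow_mul, Real.sq_sqrt hWp.le]
  set h : ℂ → ℂ := fun s => Φ (fun _ => Y + s • F) with hh
  have hd : ∀ s : ℂ, HasDerivAt h ((((m + 1 : ℕ) : ℂ) + 1) * Φ.curryLeft F (fun _ => Y + s • F)) s :=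
    fun s => lem_deriv Φ hs Y F s
  have hdiff : Differentiable ℂ h := fun s => (hd s).differentiableAt
  have hb : ∀ s : ℂ, ‖s‖ < r → ‖h s‖ ≤ R := by
    intro s hsr
    have h1 : ‖Y + s • F‖ ≤ Real.sqrt W := by
      apply Real.le_sqrt_of_sq_le
      rw [hnorm s, hW]
      have : ‖s‖ ^ 2 ≤ r ^ 2 := pow_le_pow_left₀ (norm_nonneg s) hsr.le 2
      have h2 : 0 < (1 + T ^ 2) * (1 + z ^ 2) := by positivity
      nlinarith
    exact (hu _).trans (pow_le_pow_left₀ (norm_nonneg _) h1 _)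
  have hsp := Pool.Agent.Helper5.HD.schwarz_pick hrp hRp hT0 hTr hdiff hb
  rw [(hd T).deriv] at hsp
  set c1 : ℝ := 1 + T ^ 2 with hc1
  have hc1p : 0 < c1 := by rw [hc1]; positivity
  have hhT : h T = (c1 : ℂ) ^ (m + 1 + 1) * Φ (fun _ => w) := by
    rw [hh]
    simp only
    rw [hYF, lem_smul]
  have hdT : Φ.curryLeft F (fun _ => Y + (T : ℂ) • F) =
      (c1 : ℂ) ^ (m + 1) * Φ.curryLeft F (fun _ => w) := by
    rw [hYF, lem_smul]
  have hww : Φ.curryLeft w (fun _ => w) = Φ (fun _ => w) := by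
    rw [MultilinearMap.curryLeft_apply]
    congr 1
    funext k
    refine Fin.cases ?_ (fun j => ?_) k <;> simp
  have hlin : ((1 + z ^ 2 : ℝ) : ℂ) * Φ.curryLeft e (fun _ => w) =
      ((z - T : ℝ) : ℂ) * Φ (fun _ => w) + Φ.curryLeft F (fun _ => w) := by
    have h5 : Φ.curryLeft (((1 + z ^ 2 : ℝ) : ℂ) • e) (fun _ => w) =
        Φ.curryLeft (((z - T : ℝ) : ℂ) • w + F) (fun _ => w) := by rw [hwF]
    rw [map_smul, map_add, map_smul] at h5
    simp only [MultilinearMap.smul_apply, MultilinearMap.add_apply, smul_eq_mul] at h5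
    rw [h5, hww]
  set η : ℝ := ‖h T‖ / R with hη
  have hη0 : 0 ≤ η := by rw [hη]; positivity
  have hη1 : η ≤ 1 := by
    rw [hη, div_le_one hRp]
    apply hb
    rw [Complex.norm_real, Real.norm_eq_abs, abs_of_nonneg hT0]
    exact hTr
  have hhTn : ‖h T‖ = η * R := by rw [hη]; field_simp
  have hrT : 0 < r ^ 2 - T ^ 2 := by nlinarith
  have hPw : ‖Φ (fun _ => w)‖ = η * R / c1 ^ (m + 1 + 1) := by
    rw [← hhTn, hhT, norm_mul, norm_pow, Complex.norm_real, Real.norm_eq_abs, abs_of_pos hc1p]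
    field_simp
  have hPF : ‖Φ.curryLeft F (fun _ => w)‖ ≤
      R * ((1 - η ^ 2) * r / ((r ^ 2 - T ^ 2) * ((m + 2) * c1 ^ (m + 1)))) := by
    rw [hdT, norm_mul, norm_mul, norm_pow, Complex.norm_real, Real.norm_eq_abs, abs_of_pos hc1p,
      hhTn] at hsp
    have h6 : ‖(((m + 1 : ℕ) : ℂ) + 1)‖ = (m : ℝ) + 2 := by
      have : (((m + 1 : ℕ) : ℂ) + 1) = (((m : ℝ) + 2 : ℝ) : ℂ) := by push_cast; ring
      rw [this, Complex.norm_real, Real.norm_eq_abs, abs_of_pos (by positivity)]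
    rw [h6] at hsp
    have h7 : (R ^ 2 - (η * R) ^ 2) * r / (R * (r ^ 2 - T ^ 2)) =
        R * ((1 - η ^ 2) * r / ((r ^ 2 - T ^ 2) * ((m + 2) * c1 ^ (m + 1)))) *
          (((m : ℝ) + 2) * c1 ^ (m + 1)) := by
      field_simp
    rw [h7] at hsp
    have h8 : 0 < ((m : ℝ) + 2) * c1 ^ (m + 1) := by positivity
    have h9 : ‖Φ.curryLeft F (fun _ => w)‖ * (((m : ℝ) + 2) * c1 ^ (m + 1)) ≤
        R * ((1 - η ^ 2) * r / ((r ^ 2 - T ^ 2) * ((m + 2) * c1 ^ (m + 1)))) *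
          (((m : ℝ) + 2) * c1 ^ (m + 1)) := by
      calc ‖Φ.curryLeft F (fun _ => w)‖ * (((m : ℝ) + 2) * c1 ^ (m + 1)) =
          ((m : ℝ) + 2) * (c1 ^ (m + 1) * ‖Φ.curryLeft F (fun _ => w)‖) := by ring
        _ ≤ _ := hsp
    exact le_of_mul_le_mul_right h9 h8
  have hzT : 0 ≤ z - T := by linarith
  set X : ℝ := (z - T) * η / c1 ^ (m + 2) +
          (1 - η ^ 2) * r / ((r ^ 2 - T ^ 2) * ((m + 2) * c1 ^ (m + 1))) with hX
  have hz1 : (0 : ℝ) < 1 + z ^ 2 := by positivity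
  have hbound : (1 + z ^ 2) * ‖Φ.curryLeft e (fun _ => w)‖ ≤ R * X := by
    have h1 : (1 + z ^ 2) * ‖Φ.curryLeft e (fun _ => w)‖ =
        ‖((1 + z ^ 2 : ℝ) : ℂ) * Φ.curryLeft e (fun _ => w)‖ := by
      rw [norm_mul, Complex.norm_real, Real.norm_eq_abs, abs_of_pos hz1]
    rw [h1, hlin]
    calc ‖((z - T : ℝ) : ℂ) * Φ (fun _ => w) + Φ.curryLeft F (fun _ => w)‖
        ≤ ‖((z - T : ℝ) : ℂ) * Φ (fun _ => w)‖ + ‖Φ.curryLeft F (fun _ => w)‖ := norm_add_le _ _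
      _ = (z - T) * (η * R / c1 ^ (m + 1 + 1)) + ‖Φ.curryLeft F (fun _ => w)‖ := by
          rw [norm_mul, Complex.norm_real, Real.norm_eq_abs, abs_of_nonneg hzT, hPw]
      _ ≤ (z - T) * (η * R / c1 ^ (m + 1 + 1)) +
          R * ((1 - η ^ 2) * r / ((r ^ 2 - T ^ 2) * ((m + 2) * c1 ^ (m + 1)))) := by
          linarith
      _ = R * X := by rw [hX]; ring
  have hsq : (1 + z ^ 2) ^ 2 * ‖Φ.curryLeft e (fun _ => w)‖ ^ 2 ≤ X ^ 2 * W ^ (m + 2) := by
    have h1 : ((1 + z ^ 2) * ‖Φ.curryLeft e (fun _ => w)‖) ^ 2 ≤ (R * X) ^ 2 :=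
      pow_le_pow_left₀ (by positivity) hbound 2
    rw [mul_pow, mul_pow, hR2] at h1
    linarith
  obtain ⟨k1, k2⟩ := hmain η hη0 hη1
  have hzz : (0 : ℝ) < (1 + z ^ 2) ^ 2 := by positivity
  constructor
  · exact le_of_mul_le_mul_left (hsq.trans k1) hzz
  · intro hm hz'
    exact lt_of_mul_lt_mul_left (lt_of_le_of_lt hsq (k2 hm hz')) hzz.le

/-- LEM. -/
theorem st_LEM : ST_LEM := by
  intro V _ _ _ n Φ hn hs hu e v z he hev
  obtain ⟨m, rfl⟩ : ∃ m, n = m + 1 := ⟨n - 1, by omega⟩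
  have hm1 : (0 : ℝ) < (m : ℝ) + 1 := by positivity
  have hcast : (((m + 1 : ℕ) : ℝ)) = (m : ℝ) + 1 := by push_cast; ring
  rw [hcast, Nat.add_sub_cancel]
  by_cases hv : v = 0
  · subst hv
    refine ⟨?_, fun _ _ h => absurd rfl h⟩
    have h1 : Φ.curryLeft e (fun _ => z • e + 0) = z ^ (m + 1) * Φ (fun _ => e) := by
      simp only [add_zero]
      rw [lem_smul]
      congr 1
      rw [MultilinearMap.curryLeft_apply]
      congr 1
      funext k
      refine Fin.cases ?_ (fun j => ?_) k <;> simp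
    have h2 : ‖Φ (fun _ => e)‖ ≤ 1 := by
      have := hu e
      rwa [he, one_pow] at this
    rw [h1, norm_mul, norm_pow]
    simp only [norm_zero]
    have h3 : ‖z‖ ^ (m + 1) * ‖Φ (fun _ => e)‖ ≤ ‖z‖ ^ (m + 1) := by
      calc ‖z‖ ^ (m + 1) * ‖Φ (fun _ => e)‖ ≤ ‖z‖ ^ (m + 1) * 1 :=
            mul_le_mul_of_nonneg_left h2 (by positivity)
        _ = _ := mul_one _
    calc (‖z‖ ^ (m + 1) * ‖Φ (fun _ => e)‖) ^ 2 ≤ (‖z‖ ^ (m + 1)) ^ 2 :=
          pow_le_pow_left₀ (by positivity) h3 2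
      _ = (‖z‖ ^ 2) * (‖z‖ ^ 2) ^ m := by ring
      _ = _ := by simp
  · have hρ : 0 < ‖v‖ := norm_pos_iff.2 hv
    set ρ : ℝ := ‖v‖ with hρd
    obtain ⟨c, hc, hzc⟩ : ∃ c : ℂ, ‖c‖ = 1 ∧ z = (‖z‖ : ℂ) * c := by
      by_cases hz : z = 0
      · exact ⟨1, by simp, by simp [hz]⟩
      · refine ⟨z / (‖z‖ : ℂ), ?_, ?_⟩
        · rw [norm_div, Complex.norm_real, norm_norm, div_self (norm_ne_zero_iff.2 hz)]
        · have : (‖z‖ : ℂ) ≠ 0 := by exact_mod_cast norm_ne_zero_iff.2 hz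
          field_simp
    have hc0 : c ≠ 0 := by
      intro h; rw [h, norm_zero] at hc; exact zero_ne_one hc
    have hρc : (ρ : ℂ) ≠ 0 := by exact_mod_cast hρ.ne'
    set e' : V := c • e with he'
    set v' : V := ((ρ : ℂ)⁻¹) • v with hv'
    set z' : ℝ := ‖z‖ / ρ with hz'
    have he'1 : ‖e'‖ = 1 := by rw [he', norm_smul, hc, he, one_mul]
    have hv'1 : ‖v'‖ = 1 := by
      rw [hv', norm_smul, norm_inv, Complex.norm_real, Real.norm_eq_abs, abs_of_pos hρ, ← hρd]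
      field_simp
    have hev' : inner ℂ e' v' = 0 := by
      rw [he', hv', inner_smul_left, inner_smul_right, hev]; simp
    have hz'0 : 0 ≤ z' := by rw [hz']; positivity
    have hw : z • e + v = (ρ : ℂ) • ((z' : ℂ) • e' + v') := by
      have hzz : z = (ρ : ℂ) * ((z' : ℂ) * c) := by
        rw [hz']
        push_cast
        have : (ρ : ℂ) * ((‖z‖ : ℂ) / (ρ : ℂ) * c) = (‖z‖ : ℂ) * c := by field_simp
        rw [this]
        exact hzc
      rw [smul_add, hv', smul_smul (ρ : ℂ) (ρ : ℂ)⁻¹ v, mul_inv_cancel₀ hρc, one_smul, he',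
        smul_smul (z' : ℂ) c e, smul_smul (ρ : ℂ), ← hzz]
    have hee : Φ.curryLeft e (fun _ => z • e + v) =
        c⁻¹ * ((ρ : ℂ) ^ (m + 1) * Φ.curryLeft e' (fun _ => (z' : ℂ) • e' + v')) := by
      rw [hw, lem_smul]
      have : e = c⁻¹ • e' := by rw [he', smul_smul, inv_mul_cancel₀ hc0, one_smul]
      conv_lhs => rw [this, map_smul]
      simp only [MultilinearMap.smul_apply, smul_eq_mul]
      ring
    have hnn : ‖Φ.curryLeft e (fun _ => z • e + v)‖ ^ 2 =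
        (ρ ^ 2) ^ (m + 1) * ‖Φ.curryLeft e' (fun _ => (z' : ℂ) • e' + v')‖ ^ 2 := by
      rw [hee, norm_mul, norm_mul, norm_inv, hc, norm_pow, Complex.norm_real, Real.norm_eq_abs,
        abs_of_pos hρ]
      ring
    have hrhs : (‖z‖ ^ 2 + ρ ^ 2 / ((m : ℝ) + 1)) *
        (‖z‖ ^ 2 + ((m : ℝ) + 1 + 1) * ρ ^ 2 / ((m : ℝ) + 1)) ^ m =
        (ρ ^ 2) ^ (m + 1) * ((z' ^ 2 + 1 / (m + 1)) * (z' ^ 2 + (m + 2) / (m + 1)) ^ m) := by
      have h1 : ‖z‖ ^ 2 + ρ ^ 2 / ((m : ℝ) + 1) = ρ ^ 2 * (z' ^ 2 + 1 / (m + 1)) := by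
        rw [hz']; field_simp
      have h2 : ‖z‖ ^ 2 + ((m : ℝ) + 1 + 1) * ρ ^ 2 / ((m : ℝ) + 1) =
          ρ ^ 2 * (z' ^ 2 + (m + 2) / (m + 1)) := by
        rw [hz']; field_simp; ring
      rw [h1, h2, mul_pow]
      ring
    obtain ⟨k1, k2⟩ := lem_core m Φ hs hu e' v' z' hz'0 he'1 hv'1 hev'
    rw [hnn, hrhs]
    have hρp : 0 < (ρ ^ 2) ^ (m + 1) := by positivity
    refine ⟨mul_le_mul_of_nonneg_left k1 hρp.le, fun h2 hz0 _ => ?_⟩
    apply mul_lt_mul_of_pos_left _ hρp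
    apply k2 (by omega)
    rw [hz']
    have := norm_pos_iff.2 hz0
    positivity

end LEM

end HD
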