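import Pool.Agent.Helper87.HD.Stmts

/-! Parts of the module UNIQ: reflections, permutation of the replicas, four replicas. -/

set_option autoImplicit false

open Finset HD

namespace HD.Uni66

/-! ### R7 -/

theorem polar (d : ℕ) (u w : Fin d → ℂ) :
    Matrix.vecMulVec u (star w) = (4 : ℂ)⁻¹ •
      (Matrix.vecMulVec (u + w) (star (u + w)) - Matrix.vecMulVec (u - w) (star (u - w)) +
        Complex.I • Matrix.vecMulVec (u + Complex.I • w) (star (u + Complex.I • w)) -
        Complex.I • Matrix.vecMulVec (u - Complex.I • w) (star (u - Complex.I • w))) := by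
  ext i j
  simp only [Matrix.vecMulVec_apply, Matrix.smul_apply, Matrix.add_apply, Matrix.sub_apply,
    Pi.star_apply, Pi.add_apply, Pi.sub_apply, Pi.smul_apply, smul_eq_mul, star_add, star_sub,
    star_mul', Complex.star_def, Complex.conj_I]
  ring_nf
  rw [Complex.I_sq]
  ring

theorem span_refl (d : ℕ) (S : Submodule ℂ (Matrix (Fin d) (Fin d) ℂ))
    (h1 : (1 : Matrix (Fin d) (Fin d) ℂ) ∈ S)
    (hv : ∀ v : Fin d → ℂ, ∑ i, ‖v i‖ ^ 2 = 1 →
      (1 - (2 : ℂ) • Matrix.vecMulVec v (star v)) ∈ S) : S = ⊤ := by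
  -- all `v v*` are in `S`
  have hE : ∀ v : Fin d → ℂ, Matrix.vecMulVec v (star v) ∈ S := by
    intro v
    by_cases h0 : ∑ i, ‖v i‖ ^ 2 = 0
    · have : v = 0 := by
        funext i
        have h2 := (Finset.sum_eq_zero_iff_of_nonneg (fun i _ => by positivity)).1 h0 i
          (Finset.mem_univ i)
        simpa using h2
      subst this
      have : Matrix.vecMulVec (0 : Fin d → ℂ) (star (0 : Fin d → ℂ)) = 0 := by
        ext i j; simp [Matrix.vecMulVec_apply]
      rw [this]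
      exact S.zero_mem
    · have hpos : 0 < ∑ i, ‖v i‖ ^ 2 := lt_of_le_of_ne
        (Finset.sum_nonneg fun i _ => by positivity) (Ne.symm h0)
      set c : ℝ := ∑ i, ‖v i‖ ^ 2 with hc
      set s : ℝ := (Real.sqrt c)⁻¹ with hs
      have hs2 : s ^ 2 = c⁻¹ := by
        rw [hs, inv_pow, Real.sq_sqrt hpos.le]
      have hu : ∑ i, ‖((s : ℂ) • v) i‖ ^ 2 = 1 := by
        have : ∀ i, ‖((s : ℂ) • v) i‖ ^ 2 = s ^ 2 * ‖v i‖ ^ 2 := by
          intro i
          simp only [Pi.smul_apply, smul_eq_mul, norm_mul, Complex.norm_real, Real.norm_eq_abs,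
            mul_pow, sq_abs]
        rw [Finset.sum_congr rfl (fun i _ => this i), ← Finset.mul_sum, hs2, ← hc]
        exact inv_mul_cancel₀ hpos.ne'
      have h3 := hv _ hu
      have h4 : Matrix.vecMulVec v (star v) =
          ((c / 2 : ℝ) : ℂ) • ((1 : Matrix (Fin d) (Fin d) ℂ) -
            (1 - (2 : ℂ) • Matrix.vecMulVec ((s : ℂ) • v) (star ((s : ℂ) • v)))) := by
        ext i j
        simp only [Matrix.vecMulVec_apply, Matrix.smul_apply, Matrix.sub_apply, sub_sub_cancel,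
          Pi.star_apply, Pi.smul_apply, smul_eq_mul, star_mul', Complex.star_def,
          Complex.conj_ofReal]
        have h5 : ((s : ℂ)) ^ 2 * (c : ℂ) = 1 := by
          have : s ^ 2 * c = 1 := by rw [hs2]; exact inv_mul_cancel₀ hpos.ne'
          exact_mod_cast this
        push_cast
        calc v i * (starRingEnd ℂ) (v j) = ((s : ℂ) ^ 2 * (c : ℂ)) * (v i * (starRingEnd ℂ) (v j)) := by
              rw [h5, one_mul]
          _ = _ := by ring
      rw [h4]
      exact S.smul_mem _ (S.sub_mem h1 h3)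
  have hP : ∀ u w : Fin d → ℂ, Matrix.vecMulVec u (star w) ∈ S := by
    intro u w
    rw [polar]
    exact S.smul_mem _ (S.sub_mem (S.add_mem (S.sub_mem (hE _) (hE _)) (S.smul_mem _ (hE _)))
      (S.smul_mem _ (hE _)))
  rw [eq_top_iff]
  intro M _
  rw [Matrix.matrix_eq_sum_single M]
  refine S.sum_mem fun i _ => S.sum_mem fun j _ => ?_
  have : Matrix.single i j (M i j) =
      M i j • Matrix.vecMulVec (Pi.single i (1 : ℂ)) (star (Pi.single j (1 : ℂ))) := by
    ext a b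
    simp only [Matrix.single_apply, Matrix.smul_apply, Matrix.vecMulVec_apply, Pi.star_apply,
      smul_eq_mul, Pi.single_apply]
    by_cases ha : i = a <;> by_cases hb : j = b <;> simp [ha, hb, eq_comm]
  rw [this]
  exact S.smul_mem _ (hP _ _)

/-! ### R8 -/

theorem third (d : ℕ) (hd : 3 ≤ d) (v w : Fin d → ℂ) : ∃ u : Fin d → ℂ,
    ∑ i, ‖u i‖ ^ 2 = 1 ∧ ∑ i, star (v i) * u i = 0 ∧ ∑ i, star (w i) * u i = 0 := by
  let L : (Fin d → ℂ) →ₗ[ℂ] (Fin 2 → ℂ) := Matrix.mulVecLin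
    (Matrix.of ![fun i => star (v i), fun i => star (w i)])
  have hker : LinearMap.ker L ≠ ⊥ := by
    apply LinearMap.ker_ne_bot_of_finrank_lt
    simp
    omega
  obtain ⟨u, hu, hu0⟩ := (Submodule.ne_bot_iff _).1 hker
  have hLu : L u = 0 := hu
  have h1 : ∑ i, star (v i) * u i = 0 := by
    have := congrFun hLu 0
    simpa [L, Matrix.mulVec, dotProduct] using this
  have h2 : ∑ i, star (w i) * u i = 0 := by
    have := congrFun hLu 1
    simpa [L, Matrix.mulVec, dotProduct] using this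
  have hpos : 0 < ∑ i, ‖u i‖ ^ 2 := by
    obtain ⟨i, hi⟩ : ∃ i, u i ≠ 0 := by
      by_contra h
      push Not at h
      exact hu0 (funext h)
    refine Finset.sum_pos' (fun i _ => by positivity) ⟨i, Finset.mem_univ i, ?_⟩
    have := norm_pos_iff.2 hi
    positivity
  set c : ℝ := ∑ i, ‖u i‖ ^ 2 with hc
  set s : ℝ := (Real.sqrt c)⁻¹ with hs
  have hs2 : s ^ 2 = c⁻¹ := by
    rw [hs, inv_pow, Real.sq_sqrt hpos.le]
  refine ⟨(s : ℂ) • u, ?_, ?_, ?_⟩
  · have : ∀ i, ‖((s : ℂ) • u) i‖ ^ 2 = s ^ 2 * ‖u i‖ ^ 2 := by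
      intro i
      simp only [Pi.smul_apply, smul_eq_mul, norm_mul, Complex.norm_real, Real.norm_eq_abs,
        mul_pow, sq_abs]
    rw [Finset.sum_congr rfl (fun i _ => this i), ← Finset.mul_sum, hs2, ← hc]
    exact inv_mul_cancel₀ hpos.ne'
  · have : ∀ i, star (v i) * ((s : ℂ) • u) i = (s : ℂ) * (star (v i) * u i) := by
      intro i
      simp only [Pi.smul_apply, smul_eq_mul]; ring
    rw [Finset.sum_congr rfl (fun i _ => this i), ← Finset.mul_sum, h1, mul_zero]
  · have : ∀ i, star (w i) * ((s : ℂ) • u) i = (s : ℂ) * (star (w i) * u i) := by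
      intro i
      simp only [Pi.smul_apply, smul_eq_mul]; ring
    rw [Finset.sum_congr rfl (fun i _ => this i), ← Finset.mul_sum, h2, mul_zero]

/-! ### RF -/

/-- the reflection -/
noncomputable def Hv {d : ℕ} (v : Fin d → ℂ) : Matrix (Fin d) (Fin d) ℂ :=
  1 - (2 : ℂ) • Matrix.vecMulVec v (star v)

theorem sum_star_mul {d : ℕ} (v : Fin d → ℂ) (h : ∑ i, ‖v i‖ ^ 2 = 1) :
    ∑ i, star (v i) * v i = 1 := by
  have : ∀ i, star (v i) * v i = ((‖v i‖ ^ 2 : ℝ) : ℂ) := by
    intro i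
    rw [Complex.star_def, mul_comm, Complex.mul_conj, Complex.normSq_eq_norm_sq]
  rw [Finset.sum_congr rfl (fun i _ => this i), ← Complex.ofReal_sum, h, Complex.ofReal_one]

theorem Hv_herm {d : ℕ} (v : Fin d → ℂ) :
    (1 - (2 : ℂ) • Matrix.vecMulVec v (star v)).conjTranspose =
      1 - (2 : ℂ) • Matrix.vecMulVec v (star v) := by
  ext i j
  simp only [Matrix.conjTranspose_apply, Matrix.sub_apply, Matrix.smul_apply,
    Matrix.vecMulVec_apply, Pi.star_apply, smul_eq_mul, star_sub, star_mul', star_star,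
    Matrix.one_apply]
  by_cases h : i = j
  · subst h; simp; ring
  · simp [h, Ne.symm h]; ring

theorem vv_mul {d : ℕ} (v w : Fin d → ℂ) :
    Matrix.vecMulVec v (star v) * Matrix.vecMulVec w (star w) =
      (∑ i, star (v i) * w i) • Matrix.vecMulVec v (star w) := by
  ext i j
  simp only [Matrix.mul_apply, Matrix.vecMulVec_apply, Pi.star_apply, Matrix.smul_apply,
    smul_eq_mul, Finset.sum_mul]
  exact Finset.sum_congr rfl fun k _ => by ring

theorem vv_trace {d : ℕ} (v w : Fin d → ℂ) :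
    (Matrix.vecMulVec v (star w)).trace = ∑ i, star (w i) * v i := by
  simp only [Matrix.trace, Matrix.diag_apply, Matrix.vecMulVec_apply, Pi.star_apply]
  exact Finset.sum_congr rfl fun k _ => by ring

theorem Hv_sq {d : ℕ} (v : Fin d → ℂ) (h : ∑ i, ‖v i‖ ^ 2 = 1) :
    (1 - (2 : ℂ) • Matrix.vecMulVec v (star v)) * (1 - (2 : ℂ) • Matrix.vecMulVec v (star v)) =
      1 := by
  have h1 : (1 - (2 : ℂ) • Matrix.vecMulVec v (star v)) *
      (1 - (2 : ℂ) • Matrix.vecMulVec v (star v)) =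
      1 - (4 : ℂ) • Matrix.vecMulVec v (star v) +
        (4 : ℂ) • (Matrix.vecMulVec v (star v) * Matrix.vecMulVec v (star v)) := by
    rw [sub_mul, mul_sub, mul_sub, smul_mul_smul_comm, one_mul, mul_one, one_mul]
    module
  rw [h1, vv_mul, sum_star_mul v h, one_smul]
  abel

theorem Hv_trace {d : ℕ} (v : Fin d → ℂ) (h : ∑ i, ‖v i‖ ^ 2 = 1) :
    (1 - (2 : ℂ) • Matrix.vecMulVec v (star v)).trace = (d : ℂ) - 2 := by
  rw [Matrix.trace_sub, Matrix.trace_smul, vv_trace, sum_star_mul v h, Matrix.trace_one]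
  simp

theorem Hv_mul_trace {d : ℕ} (v w : Fin d → ℂ) (hv : ∑ i, ‖v i‖ ^ 2 = 1)
    (hw : ∑ i, ‖w i‖ ^ 2 = 1) :
    ((1 - (2 : ℂ) • Matrix.vecMulVec v (star v)) *
      (1 - (2 : ℂ) • Matrix.vecMulVec w (star w))).trace =
      (d : ℂ) - 4 + 4 * (∑ i, star (v i) * w i) * (∑ i, star (w i) * v i) := by
  rw [sub_mul, mul_sub, mul_sub, smul_mul_smul_comm, one_mul, mul_one, one_mul, vv_mul,
    Matrix.trace_sub, Matrix.trace_sub, Matrix.trace_sub, Matrix.trace_smul, Matrix.trace_smul,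
    Matrix.trace_smul, Matrix.trace_smul, vv_trace, vv_trace, vv_trace, sum_star_mul v hv,
    sum_star_mul w hw, Matrix.trace_one]
  simp only [Fintype.card_fin, smul_eq_mul]
  ring

theorem curve_unitary {d : ℕ} (H : Matrix (Fin d) (Fin d) ℂ) (hH : H.conjTranspose = H)
    (hH2 : H * H = 1) (t : ℝ) :
    ((Real.sqrt (1 + t ^ 2) : ℝ) : ℂ)⁻¹ • (1 + ((t : ℂ) * Complex.I) • H) ∈
      Matrix.unitaryGroup (Fin d) ℂ := by
  rw [Matrix.mem_unitaryGroup_iff]
  have hpos : (0 : ℝ) < 1 + t ^ 2 := by positivity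
  have hs : ((Real.sqrt (1 + t ^ 2) : ℝ) : ℂ) ^ 2 = 1 + (t : ℂ) ^ 2 := by
    rw [← Complex.ofReal_pow, Real.sq_sqrt hpos.le]
    push_cast
    ring
  have hs0 : ((Real.sqrt (1 + t ^ 2) : ℝ) : ℂ) ≠ 0 := by
    exact_mod_cast (Real.sqrt_pos.2 hpos).ne'
  have hstar : star (((Real.sqrt (1 + t ^ 2) : ℝ) : ℂ)⁻¹ • (1 + ((t : ℂ) * Complex.I) • H)) =
      ((Real.sqrt (1 + t ^ 2) : ℝ) : ℂ)⁻¹ • (1 - ((t : ℂ) * Complex.I) • H) := by
    rw [Matrix.star_eq_conjTranspose, Matrix.conjTranspose_smul, Matrix.conjTranspose_add,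
      Matrix.conjTranspose_smul, hH, Matrix.conjTranspose_one]
    have h1 : star (((Real.sqrt (1 + t ^ 2) : ℝ) : ℂ)⁻¹) = ((Real.sqrt (1 + t ^ 2) : ℝ) : ℂ)⁻¹ := by
      rw [Complex.star_def, map_inv₀, Complex.conj_ofReal]
    have h2 : star ((t : ℂ) * Complex.I) = -((t : ℂ) * Complex.I) := by
      rw [Complex.star_def, map_mul, Complex.conj_ofReal, Complex.conj_I]; ring
    rw [h1, h2, neg_smul, sub_eq_add_neg]
  rw [hstar, smul_mul_smul_comm, add_mul, one_mul, mul_sub, smul_mul_smul_comm, hH2, mul_one]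
  have h3 : (1 - ((t : ℂ) * Complex.I) • H +
      (((t : ℂ) * Complex.I) • H - ((t : ℂ) * Complex.I * ((t : ℂ) * Complex.I)) •
        (1 : Matrix (Fin d) (Fin d) ℂ))) = (1 + (t : ℂ) ^ 2) • (1 : Matrix (Fin d) (Fin d) ℂ) := by
    have : (t : ℂ) * Complex.I * ((t : ℂ) * Complex.I) = -(t : ℂ) ^ 2 := by
      calc (t : ℂ) * Complex.I * ((t : ℂ) * Complex.I) = (t : ℂ) ^ 2 * Complex.I ^ 2 := by ring
        _ = _ := by rw [Complex.I_sq]; ring
    rw [this]
    module
  rw [h3, smul_smul, ← hs]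
  have : ((Real.sqrt (1 + t ^ 2) : ℝ) : ℂ)⁻¹ * ((Real.sqrt (1 + t ^ 2) : ℝ) : ℂ)⁻¹ *
      ((Real.sqrt (1 + t ^ 2) : ℝ) : ℂ) ^ 2 = 1 := by field_simp
  rw [this, one_smul]

/-! ### R10 -/

theorem PP_perm (d m : ℕ) (σ : Equiv.Perm (Fin m)) (x : Ix d m → ℂ) :
    PP d m (fun a => x (fun j => a (σ j))) = PP d m x := by
  unfold PP
  refine Fintype.sum_equiv (Equiv.arrowCongr σ.symm (Equiv.refl (Equiv.Perm (Fin d)))) _ _ ?_
  intro π
  have h1 : ∏ j, ((Equiv.Perm.sign ((Equiv.arrowCongr σ.symm (Equiv.refl (Equiv.Perm (Fin d)))) π j) : ℤ) : ℂ) =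
      ∏ j, ((Equiv.Perm.sign (π j) : ℤ) : ℂ) := by
    exact Equiv.prod_comp σ (fun j => ((Equiv.Perm.sign (π j) : ℤ) : ℂ))
  rw [h1]
  rfl

theorem sum_perm (d m : ℕ) (σ : Equiv.Perm (Fin m)) (x : Ix d m → ℂ) :
    ∑ a : Ix d m, ‖x (fun j => a (σ j))‖ ^ 2 = ∑ a, ‖x a‖ ^ 2 := by
  refine Fintype.sum_equiv (Equiv.arrowCongr σ.symm (Equiv.refl (Fin d))) _ _ ?_
  intro a
  rfl

theorem prod_perm {d m K : ℕ} (σ : Equiv.Perm (Fin m)) (x : Ix d m → ℂ)
    (e : Fin K × Fin 2 ≃ Fin m) (U : Fin K → Matrix (Fin d) (Fin d) ℂ)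
    (h : IsProd e U (fun a : Ix d m => x (fun j => a (σ j)))) (hσ : ∀ j, σ (σ j) = j) :
    IsProd (e.trans σ) U x := by
  intro b
  have := h (fun j => b (σ j))
  simp only [hσ] at this
  rw [this]
  rfl

/-! ### R11 -/

theorem four (WIG : ST_WIG) (d : ℕ) (hd : 1 ≤ d) (x : Ix d 4 → ℂ)
    (h : ∀ N ∈ Matrix.unitaryGroup (Fin d) ℂ, ∃ (e : Fin 1 × Fin 2 ≃ Fin 2)
      (U : Fin 1 → Matrix (Fin d) (Fin d) ℂ), (∀ k, U k ∈ Matrix.unitaryGroup (Fin d) ℂ) ∧
      IsProd e U (fun a : Ix d 2 => ((Real.sqrt d : ℝ) : ℂ) *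
        ∑ i, ∑ j, N i j * x (Fin.cons i (Fin.cons j a : Fin 3 → Fin d)))) :
    ∃ (e : Fin 2 × Fin 2 ≃ Fin 4) (U : Fin 2 → Matrix (Fin d) (Fin d) ℂ),
      (∀ k, U k ∈ Matrix.unitaryGroup (Fin d) ℂ) ∧ IsProd e U x := by
  have hdp : (0 : ℝ) < d := by exact_mod_cast hd
  have hsq : ((Real.sqrt d : ℝ) : ℂ) ≠ 0 := by exact_mod_cast (Real.sqrt_pos.2 hdp).ne'
  have hsq2 : ((Real.sqrt d : ℝ) : ℂ) * ((Real.sqrt d : ℝ) : ℂ) = d := by
    rw [← Complex.ofReal_mul, Real.mul_self_sqrt hdp.le]; simp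
  have hd0 : (d : ℂ) ≠ 0 := by exact_mod_cast (by omega : d ≠ 0)
  let φ : Matrix (Fin d) (Fin d) ℂ →ₗ[ℂ] Matrix (Fin d) (Fin d) ℂ :=
    { toFun := fun N => Matrix.of fun s r => (d : ℂ) *
        ∑ i, ∑ j, N i j * x (Fin.cons i (Fin.cons j ![s, r] : Fin 3 → Fin d))
      map_add' := by
        intro N M
        ext s r
        simp only [Matrix.of_apply, Matrix.add_apply, add_mul, Finset.sum_add_distrib, mul_add]
      map_smul' := by
        intro c N
        ext s r
        simp only [Matrix.of_apply, Matrix.smul_apply, smul_eq_mul, RingHom.id_apply,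
          Finset.mul_sum]
        exact Finset.sum_congr rfl fun i _ => Finset.sum_congr rfl fun j _ => by ring }
  have hφ : ∀ N s r, φ N s r = (d : ℂ) *
        ∑ i, ∑ j, N i j * x (Fin.cons i (Fin.cons j ![s, r] : Fin 3 → Fin d)) := fun N s r => rfl
  have hφu : ∀ N ∈ Matrix.unitaryGroup (Fin d) ℂ, φ N ∈ Matrix.unitaryGroup (Fin d) ℂ := by
    intro N hN
    obtain ⟨e, U, hU, hP⟩ := h N hN
    have hval : ∀ s r, φ N s r = U 0 (![s, r] (e (0, 0))) (![s, r] (e (0, 1))) := by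
      intro s r
      have h1 := hP ![s, r]
      simp only [Finset.univ_unique, Fin.default_eq_zero, Fin.isValue, Finset.prod_singleton,
        pow_one] at h1
      rw [hφ, ← hsq2, mul_assoc, h1]
      field_simp
    have he : (e (0, 0) = 0 ∧ e (0, 1) = 1) ∨ (e (0, 0) = 1 ∧ e (0, 1) = 0) := by
      have hne : e (0, 0) ≠ e (0, 1) := fun h => by simpa using e.injective h
      rcases Fin.exists_fin_two.1 ⟨e (0, 0), rfl⟩ with h0 | h0 <;>
      rcases Fin.exists_fin_two.1 ⟨e (0, 1), rfl⟩ with h1 | h1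
      · exact absurd (h0.trans h1.symm) hne
      · exact Or.inl ⟨h0, h1⟩
      · exact Or.inr ⟨h0, h1⟩
      · exact absurd (h0.trans h1.symm) hne
    rcases he with ⟨h0, h1⟩ | ⟨h0, h1⟩
    · have : φ N = U 0 := by
        ext s r
        rw [hval, h0, h1]; rfl
      rw [this]; exact hU 0
    · have : φ N = (U 0).transpose := by
        ext s r
        rw [hval, h0, h1]; rfl
      rw [this]
      have h2 := hU 0
      rw [Matrix.mem_unitaryGroup_iff] at h2 ⊢
      have h3 : star (U 0) * U 0 = 1 := Matrix.mem_unitaryGroup_iff'.1 (hU 0)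
      have : star (U 0).transpose = (star (U 0)).transpose := by
        ext a b; simp [Matrix.star_apply]
      rw [this, ← Matrix.transpose_mul, h3, Matrix.transpose_one]
  have htr : ∀ M ∈ Matrix.unitaryGroup (Fin d) ℂ, M.transpose ∈ Matrix.unitaryGroup (Fin d) ℂ := by
    intro M hM
    rw [Matrix.mem_unitaryGroup_iff]
    have h3 : star M * M = 1 := Matrix.mem_unitaryGroup_iff'.1 hM
    have : star M.transpose = (star M).transpose := by
      ext a b; simp [Matrix.star_apply]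
    rw [this, ← Matrix.transpose_mul, h3, Matrix.transpose_one]
  obtain ⟨A, hA, B, hB, hAB⟩ := WIG d φ hφu
  -- values of `x`
  have hx : ∀ i j s r, φ (Matrix.single i j 1) s r =
      (d : ℂ) * x (Fin.cons i (Fin.cons j ![s, r] : Fin 3 → Fin d)) := by
    intro i j s r
    rw [hφ]
    congr 1
    rw [Finset.sum_eq_single i, Finset.sum_eq_single j]
    · simp
    · intro b _ hb
      simp [Ne.symm hb]
    · simp
    · intro b _ hb
      refine Finset.sum_eq_zero fun c _ => ?_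
      simp [Ne.symm hb]
    · simp
  have hcons : ∀ a : Ix d 4, a = (Fin.cons (a 0) (Fin.cons (a 1) ![a 2, a 3] : Fin 3 → Fin d) :
      Fin 4 → Fin d) := by
    intro a
    funext k
    fin_cases k <;> rfl
  rcases hAB with hc | hc
  · -- `A N B`
    have hv : ∀ i j s r, φ (Matrix.single i j 1) s r = A s i * B j r := by
      intro i j s r
      rw [hc]
      rw [Matrix.mul_apply]
      rw [Finset.sum_eq_single j]
      · rw [Matrix.mul_apply, Finset.sum_eq_single i]
        · simp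
        · intro b _ hb; simp [Ne.symm hb]
        · simp
      · intro b _ hb
        rw [Matrix.mul_apply]
        rw [Finset.sum_eq_zero, zero_mul]
        intro c _
        simp [Ne.symm hb]
      · simp
    let f : Fin 2 × Fin 2 → Fin 4 := fun p => ![![0, 2], ![1, 3]] p.1 p.2
    have hf : Function.Bijective f := by decide
    refine ⟨Equiv.ofBijective f hf, ![A.transpose, B], ?_, ?_⟩
    · intro k
      fin_cases k
      · exact htr A hA
      · exact hB
    · intro a
      have h1 := hx (a 0) (a 1) (a 2) (a 3)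
      rw [hv, ← hcons a] at h1
      rw [Fin.prod_univ_two]
      simp only [Equiv.ofBijective_apply, f]
      simp only [Fin.isValue, Matrix.cons_val_zero, Matrix.cons_val_one, Matrix.transpose_apply]
      rw [sq, hsq2, eq_div_iff hd0, mul_comm, ← h1]
  · have hv : ∀ i j s r, φ (Matrix.single i j 1) s r = A s j * B i r := by
      intro i j s r
      rw [hc]
      rw [Matrix.mul_apply]
      rw [Finset.sum_eq_single i]
      · rw [Matrix.mul_apply, Finset.sum_eq_single j]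
        · simp
        · intro b _ hb; simp [Ne.symm hb]
        · simp
      · intro b _ hb
        rw [Matrix.mul_apply]
        rw [Finset.sum_eq_zero, zero_mul]
        intro c _
        simp [Ne.symm hb]
      · simp
    let f : Fin 2 × Fin 2 → Fin 4 := fun p => ![![0, 3], ![1, 2]] p.1 p.2
    have hf : Function.Bijective f := by decide
    refine ⟨Equiv.ofBijective f hf, ![B, A.transpose], ?_, ?_⟩
    · intro k
      fin_cases k
      · exact hB
      · exact htr A hA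
    · intro a
      have h1 := hx (a 0) (a 1) (a 2) (a 3)
      rw [hv, ← hcons a] at h1
      rw [Fin.prod_univ_two]
      simp only [Equiv.ofBijective_apply, f]
      simp only [Fin.isValue, Matrix.cons_val_zero, Matrix.cons_val_one, Matrix.transpose_apply]
      rw [sq, hsq2, eq_div_iff hd0, mul_comm, ← h1]
      ring

end HD.Uni66
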